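import Pool.Agent.H98.EX.LTargets
import Pool.Agent.H76.EX.PR1

/-!
# Row IDX of the board exa_modules: the two-sided sums under the tilt of the pair (helper46)
-/

set_option autoImplicit false

open MeasureTheory ProbabilityTheory Filter Topology
open scoped ENNReal
open Pool.Agent.H95 Pool.Agent.H95.Cop
open Pool.Agent.H55.CG (Mo)
open Pool.Agent.H98.EX
open Pool.Agent.H1.EX (wb_mVR wb_mVL wb_VR0 wb_VL0)
open Pool.Agent.H76.EX (fub1 fub2 VR_congr VL_congr meas_rv FF meas_FF lint_FF FF_dep mean_f QQ0)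

namespace Pool.Agent.H46.EX

lemma mH (a b : ℕ) : Measurable (fun y : ℕ → ℝ => H y a b) := by
  unfold H
  exact Finset.measurable_sum _ fun i _ => measurable_pi_apply i

/-- the sum at the left end of the last block -/
noncomputable def CR (R : ℕ) (y : ℕ → ℝ) : ℝ :=
  1 + VR R (fun j => y (R - 1 - j)) + VL R (shift R y)

lemma mNL (R a : ℕ) : Measurable (fun y : ℕ → ℝ => NL R y a) := by
  unfold NL
  exact (measurable_const.add ((wb_mVR R).comp (measurable_shift a))).add
    ((wb_mVL R).comp (measurable_pi_lambda _ fun j => measurable_pi_apply _))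

lemma mNR (R b : ℕ) : Measurable (fun y : ℕ → ℝ => NR R y b) := by
  unfold NR
  exact (measurable_const.add ((wb_mVR R).comp
    (measurable_pi_lambda _ fun j => measurable_pi_apply _))).add
    ((wb_mVL R).comp (measurable_shift (b + 1)))

lemma mCR (R : ℕ) : Measurable (CR R) := by
  unfold CR
  exact (measurable_const.add ((wb_mVR R).comp
    (measurable_pi_lambda _ fun j => measurable_pi_apply _))).add
    ((wb_mVL R).comp (measurable_shift R))

lemma NL0 (R a : ℕ) (y : ℕ → ℝ) : 0 ≤ NL R y a := by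
  unfold NL
  linarith [wb_VR0 R (shift a y), wb_VL0 R fun j => y (a - 1 - j)]

lemma CR0 (R : ℕ) (y : ℕ → ℝ) : 0 ≤ CR R y := by
  unfold CR
  linarith [wb_VR0 R fun j => y (R - 1 - j), wb_VL0 R (shift R y)]

/-- the first block -/
noncomputable def fA (γ p : ℝ) (R : ℕ) (y : ℕ → ℝ) : ℝ≥0∞ :=
  ENNReal.ofReal (Real.exp (γ * H y R (R + R))) * ENNReal.ofReal (NL R y R ^ (-p))

/-- the last block -/
noncomputable def fC (γ p : ℝ) (R : ℕ) (y : ℕ → ℝ) : ℝ≥0∞ :=
  ENNReal.ofReal (Real.exp (γ * H y 0 R)) * ENNReal.ofReal (CR R y ^ (-p))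

lemma mA (γ p : ℝ) (R : ℕ) : Measurable (fA γ p R) :=
  (ENNReal.measurable_ofReal.comp (Real.measurable_exp.comp ((mH R (R + R)).const_mul γ))).mul
    (ENNReal.measurable_ofReal.comp ((mNL R R).pow_const _))

lemma mC (γ p : ℝ) (R : ℕ) : Measurable (fC γ p R) :=
  (ENNReal.measurable_ofReal.comp (Real.measurable_exp.comp ((mH 0 R).const_mul γ))).mul
    (ENNReal.measurable_ofReal.comp ((mCR R).pow_const _))

lemma dFF (ρ : Measure ℝ) (p : ℝ) (R : ℕ) :
    DepLt R (fun u => ENNReal.ofReal (FF ρ p R u)) := by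
  intro x x' hx
  simp only
  rw [FF_dep ρ p hx]

lemma intA (hCMT : Pool.Agent.H98.SLN.T_CMT) (hREV : T_REV) (ρ : Measure ℝ)
    [IsProbabilityMeasure ρ] (hexp : ∀ t : ℝ, Integrable (fun z => Real.exp (t * z)) ρ)
    {γ p : ℝ} {R : ℕ} (hp : 0 ≤ p) :
    ∫⁻ y, fA γ p R y ∂(iid ρ) =
      ENNReal.ofReal (Mo ρ γ ^ R) * ENNReal.ofReal (QQ ρ γ p R R) := by
  obtain ⟨h1, -, h2⟩ := hCMT ρ hexp γ
  rw [fub1 ρ R (mA γ p R)]
  have h3 : ∀ z x : ℕ → ℝ, fA γ p R (splice R (x, z)) =
      ENNReal.ofReal (Real.exp (γ * H z 0 R)) *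
        ENNReal.ofReal ((1 + VR R z + VL R (rv R x)) ^ (-p)) := by
    intro z x
    unfold fA
    have e1 : H (splice R (x, z)) R (R + R) = H z 0 R := by
      have := H_shift (splice R (x, z)) R 0 R
      rw [shift_splice, zero_add] at this
      exact this.symm
    have e2 : NL R (splice R (x, z)) R = 1 + VR R z + VL R (rv R x) := by
      unfold NL
      rw [shift_splice]
      congr 1
      refine VL_congr fun j hj => ?_
      unfold rv
      rw [if_pos hj]
      have : R - 1 - j < R := by omega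
      simp only [splice, this, if_true]
    rw [e1, e2]
  have h4 : ∀ z : ℕ → ℝ, ∫⁻ x, fA γ p R (splice R (x, z)) ∂(iid ρ) =
      ENNReal.ofReal (Real.exp (γ * H z 0 R)) * ENNReal.ofReal (FF ρ p R z) := by
    intro z
    have hm : Measurable fun y : ℕ → ℝ => ENNReal.ofReal ((1 + VR R z + VL R y) ^ (-p)) :=
      ENNReal.measurable_ofReal.comp ((measurable_const.add (wb_mVL R)).pow_const _)
    have hm2 : Measurable fun x : ℕ → ℝ =>
        ENNReal.ofReal ((1 + VR R z + VL R (rv R x)) ^ (-p)) := hm.comp (meas_rv R)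
    rw [lintegral_congr (h3 z), lintegral_const_mul _ hm2, ← lint_FF ρ hp R z]
    congr 1
    exact (hREV ρ R).lintegral_comp hm
  rw [lintegral_congr h4, h2 R (fun z => ENNReal.ofReal (FF ρ p R z))
    (ENNReal.measurable_ofReal.comp (meas_FF ρ p R)) (dFF ρ p R)]
  congr 1
  exact mean_f (φ := id) hp (MeasurePreserving.id _)

lemma intC (hCMT : Pool.Agent.H98.SLN.T_CMT) (hREV : T_REV) (ρ : Measure ℝ)
    [IsProbabilityMeasure ρ] (hexp : ∀ t : ℝ, Integrable (fun z => Real.exp (t * z)) ρ)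
    {γ p : ℝ} {R : ℕ} (hp : 0 ≤ p) :
    ∫⁻ y, fC γ p R y ∂(iid ρ) =
      ENNReal.ofReal (Mo ρ γ ^ R) * ENNReal.ofReal (QQ ρ γ p R R) := by
  obtain ⟨h1, -, h2⟩ := hCMT ρ hexp γ
  rw [fub2 ρ R (mC γ p R)]
  have h3 : ∀ z w : ℕ → ℝ, fC γ p R (splice R (z, w)) =
      ENNReal.ofReal (Real.exp (γ * H z 0 R)) *
        ENNReal.ofReal ((1 + VR R (rv R z) + VL R w) ^ (-p)) := by
    intro z w
    unfold fC
    have e1 : H (splice R (z, w)) 0 R = H z 0 R := by
      unfold H
      refine Finset.sum_congr rfl fun i hi => ?_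
      rw [Finset.mem_Ico] at hi
      simp [splice, hi.2]
    have e2 : CR R (splice R (z, w)) = 1 + VR R (rv R z) + VL R w := by
      unfold CR
      rw [shift_splice]
      congr 2
      refine VR_congr fun j hj => ?_
      unfold rv
      rw [if_pos hj]
      have : R - 1 - j < R := by omega
      simp only [splice, this, if_true]
    rw [e1, e2]
  have h4 : ∀ z : ℕ → ℝ, ∫⁻ w, fC γ p R (splice R (z, w)) ∂(iid ρ) =
      ENNReal.ofReal (Real.exp (γ * H z 0 R)) * ENNReal.ofReal (FF ρ p R (rv R z)) := by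
    intro z
    have hm : Measurable fun y : ℕ → ℝ =>
        ENNReal.ofReal ((1 + VR R (rv R z) + VL R y) ^ (-p)) :=
      ENNReal.measurable_ofReal.comp ((measurable_const.add (wb_mVL R)).pow_const _)
    rw [lintegral_congr (h3 z), lintegral_const_mul _ hm, ← lint_FF ρ hp R (rv R z)]
  have h5 : DepLt R (fun z => ENNReal.ofReal (FF ρ p R (rv R z))) := by
    intro x x' hx
    simp only
    rw [FF_dep ρ p (u := rv R x) (u' := rv R x') fun i hi => by
      unfold rv
      rw [if_pos hi, if_pos hi]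
      exact hx _ (by omega)]
  rw [lintegral_congr h4, h2 R (fun z => ENNReal.ofReal (FF ρ p R (rv R z)))
    (ENNReal.measurable_ofReal.comp ((meas_FF ρ p R).comp (meas_rv R))) h5]
  congr 1
  exact mean_f (φ := rv R) hp (hREV _ R)

lemma depA (γ p : ℝ) {R a : ℕ} (hRa : R ≤ a) :
    DepLt (a + R) (fun y => fA γ p R (shift (a - R) y)) := by
  intro x x' hx
  have h0 : ∀ i < 2 * R, shift (a - R) x i = shift (a - R) x' i := fun i hi => by
    rw [shift_apply, shift_apply]
    exact hx _ (by omega)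
  simp only
  unfold fA
  have e1 : H (shift (a - R) x) R (R + R) = H (shift (a - R) x') R (R + R) := by
    unfold H
    refine Finset.sum_congr rfl fun i hi => ?_
    rw [Finset.mem_Ico] at hi
    exact h0 i (by omega)
  have e2 : NL R (shift (a - R) x) R = NL R (shift (a - R) x') R := by
    unfold NL
    congr 1
    · congr 1
      refine VR_congr fun j hj => ?_
      rw [shift_apply, shift_apply (t := R) (x := shift (a - R) x')]
      exact h0 _ (by omega)
    · refine VL_congr fun j hj => ?_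
      exact h0 _ (by omega)
  rw [e1, e2]

lemma point (γ p : ℝ) {R a b m : ℕ} (hRa : R ≤ a) (hm : m + (a + R) + R = b + 1)
    (y : ℕ → ℝ) :
    ENNReal.ofReal (Real.exp (γ * H y a (b + 1)) * (NL R y a * NR R y b) ^ (-p)) =
      fA γ p R (shift (a - R) y) *
        (fun z => ENNReal.ofReal (Real.exp (γ * H z 0 m)) * fC γ p R (shift m z))
          (shift (a + R) y) := by
  have e1 : H y a (b + 1) = H (shift (a - R) y) R (R + R) + H (shift (a + R) y) 0 m +
      H (shift (m + (a + R)) y) 0 R := by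
    rw [H_shift, H_shift, H_shift]
    have i1 : R + (a - R) = a := by omega
    have i2 : R + R + (a - R) = a + R := by omega
    have i3 : R + (m + (a + R)) = b + 1 := by omega
    rw [i1, i2, i3, zero_add, zero_add, H_add y (by omega) (by omega),
      H_add y (by omega) (by omega)]
  have e2 : NL R y a = NL R (shift (a - R) y) R := by
    unfold NL
    rw [shift_shift]
    have i1 : R + (a - R) = a := by omega
    rw [i1]
    congr 1
    refine VL_congr fun j hj => ?_
    rw [shift_apply]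
    congr 1
    omega
  have e3 : NR R y b = CR R (shift (m + (a + R)) y) := by
    unfold NR CR
    rw [shift_shift]
    have i1 : R + (m + (a + R)) = b + 1 := by omega
    rw [i1]
    congr 2
    refine VR_congr fun j hj => ?_
    rw [shift_apply]
    congr 1
    omega
  simp only
  unfold fA fC
  rw [shift_shift, e1, e2, e3, Real.mul_rpow (NL0 _ _ _) (CR0 _ _), mul_add, mul_add,
    Real.exp_add, Real.exp_add]
  have n1 := Real.exp_pos (γ * H (shift (a - R) y) R (R + R))
  have n2 := Real.exp_pos (γ * H (shift (a + R) y) 0 m)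
  have n3 := Real.exp_pos (γ * H (shift (m + (a + R)) y) 0 R)
  have n4 : 0 ≤ NL R (shift (a - R) y) R ^ (-p) := Real.rpow_nonneg (NL0 _ _ _) _
  rw [ENNReal.ofReal_mul (by positivity), ENNReal.ofReal_mul (by positivity),
    ENNReal.ofReal_mul n1.le, ENNReal.ofReal_mul n4]
  ring

theorem pf_IDX (hINR : Pool.Agent.H98.SLN.T_INR) (hCMT : Pool.Agent.H98.SLN.T_CMT)
    (hREV : T_REV) : T_IDX := by
  intro ρ _ hexp γ p R a b hp hR hRa hab
  obtain ⟨m, hm⟩ : ∃ m, m + (a + R) + R = b + 1 := ⟨b + 1 - a - 2 * R, by omega⟩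
  have hmeas : Measurable fun y : ℕ → ℝ =>
      Real.exp (γ * H y a (b + 1)) * (NL R y a * NR R y b) ^ (-p) :=
    (Real.measurable_exp.comp ((mH a (b + 1)).const_mul γ)).mul
      (((mNL R a).mul (mNR R b)).pow_const _)
  have hNR0 : ∀ y : ℕ → ℝ, 0 ≤ NR R y b := by
    intro y
    unfold NR
    linarith [wb_VR0 R fun j => y (b - j), wb_VL0 R (shift (b + 1) y)]
  have h0 : ∀ y : ℕ → ℝ, 0 ≤ Real.exp (γ * H y a (b + 1)) * (NL R y a * NR R y b) ^ (-p) :=
    fun y => mul_nonneg (Real.exp_pos _).le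
      (Real.rpow_nonneg (mul_nonneg (NL0 _ _ _) (hNR0 y)) _)
  have hMo : 0 ≤ Mo ρ γ := integral_nonneg fun z => (Real.exp_pos _).le
  have hQ : 0 ≤ QQ ρ γ p R R := QQ0 ρ γ p R
  have hE : Measurable fun z : ℕ → ℝ => ENNReal.ofReal (Real.exp (γ * H z 0 m)) :=
    ENNReal.measurable_ofReal.comp (Real.measurable_exp.comp ((mH 0 m).const_mul γ))
  have hEd : DepLt m fun z : ℕ → ℝ => ENNReal.ofReal (Real.exp (γ * H z 0 m)) := by
    intro x x' hx
    simp only
    unfold H
    rw [Finset.sum_congr rfl fun i hi => hx i (Finset.mem_Ico.mp hi).2]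
  have hL : ∫⁻ y : ℕ → ℝ, ENNReal.ofReal
      (Real.exp (γ * H y a (b + 1)) * (NL R y a * NR R y b) ^ (-p)) ∂(iid ρ) =
      ENNReal.ofReal (Mo ρ γ ^ (b + 1 - a) * QQ ρ γ p R R ^ 2) := by
    rw [lintegral_congr (point γ p hRa hm)]
    rw [Pool.Agent.H96.Cop.lint_mul_shift ρ (f := fun y => fA γ p R (shift (a - R) y))
      (g := fun z => ENNReal.ofReal (Real.exp (γ * H z 0 m)) * fC γ p R (shift m z))
      (t := a + R) (depA γ p hRa) ((mA γ p R).comp (measurable_shift _))
      (hE.mul ((mC γ p R).comp (measurable_shift _)))]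
    rw [Pool.Agent.H96.Cop.lint_mul_shift ρ
      (f := fun z => ENNReal.ofReal (Real.exp (γ * H z 0 m))) (g := fC γ p R) (t := m)
      hEd hE (mC γ p R)]
    rw [(measurePreserving_shift ρ (a - R)).lintegral_comp (mA γ p R),
      intA hCMT hREV ρ hexp hp, intC hCMT hREV ρ hexp hp,
      Pool.Agent.H98.SLN.lint_exp_u ρ hexp γ m]
    have e1 : b + 1 - a = R + m + R := by omega
    rw [e1, pow_add, pow_add, ENNReal.ofReal_mul (by positivity), ENNReal.ofReal_mul
      (by positivity), ENNReal.ofReal_mul (by positivity), pow_two, ENNReal.ofReal_mul hQ]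
    ring
  refine ⟨⟨hmeas.aestronglyMeasurable, ?_⟩, ?_⟩
  · rw [hasFiniteIntegral_iff_ofReal (Eventually.of_forall h0), hL]
    exact ENNReal.ofReal_lt_top
  · rw [integral_eq_lintegral_of_nonneg_ae (Eventually.of_forall h0)
      hmeas.aestronglyMeasurable, hL, ENNReal.toReal_ofReal (by positivity)]

end Pool.Agent.H46.EX
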