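import Pool.Agent.H98.EX.BTargets
import Pool.Agent.H85.CE.PRP

/-!
# Row NM1 of the board exa_modules: numerical conditions of the scales (helper46)
-/

set_option autoImplicit false

open MeasureTheory ProbabilityTheory Filter Topology
open scoped ENNReal
open Pool.Agent.H95 Pool.Agent.H95.Cop
open Pool.Agent.H98.EX

namespace Pool.Agent.H46.EX

lemma rpow_half {u b t : ℝ} (hu : 0 < u) (hu1 : u ≤ 1) (ht : 1 / 2 ≤ t) (hb : 0 ≤ b)
    (h : u ≤ b ^ 2) : u ^ t ≤ b := by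
  calc u ^ t ≤ u ^ (1 / 2 : ℝ) := Real.rpow_le_rpow_of_exponent_ge hu hu1 ht
    _ = Real.sqrt u := (Real.sqrt_eq_rpow u).symm
    _ ≤ b := Real.sqrt_le_iff.2 ⟨hb, h⟩

lemma pw1 {x y P θ : ℝ} (hy0 : 0 < y) (hx0 : 0 < x) (hx8 : y ^ 8 = x) (hP1 : 1 ≤ P)
    (ht0 : 1 / 2 ≤ θ) (hxP : x * P ≤ 1 / 128) : (72 * x * P) ^ θ ≤ 9 * P * y ^ 4 := by
  have hPP : P ≤ P ^ 2 := le_self_pow₀ hP1 (by norm_num)
  have h1 := mul_le_mul_of_nonneg_right hPP hx0.le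
  have h2 : (9 * P * y ^ 4) ^ 2 = 81 * (P ^ 2 * x) := by rw [← hx8]; ring
  have h3 : 0 < P * x := by positivity
  apply rpow_half (by positivity) (by linarith) ht0 (by positivity)
  rw [h2]
  linarith

lemma pw2 {x y P θ : ℝ} (hy0 : 0 < y) (hx0 : 0 < x) (hx8 : y ^ 8 = x) (hP1 : 1 ≤ P)
    (ht0 : 1 / 2 ≤ θ) (hxP : x * P ≤ 1 / 128) : (4 * x * P) ^ θ ≤ 2 * P * y ^ 4 := by
  have hPP : P ≤ P ^ 2 := le_self_pow₀ hP1 (by norm_num)
  have h1 := mul_le_mul_of_nonneg_right hPP hx0.le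
  have h2 : (2 * P * y ^ 4) ^ 2 = 4 * (P ^ 2 * x) := by rw [← hx8]; ring
  have h3 : 0 < P * x := by positivity
  apply rpow_half (by positivity) (by linarith) ht0 (by positivity)
  rw [h2]
  linarith

lemma pw3 {x P θ : ℝ} (hx0 : 0 < x) (hP1 : 1 ≤ P)
    (ht0 : 1 / 2 ≤ θ) (hxP : x * P ≤ 1 / 128) : (72 * x ^ 2 * P ^ 2) ^ θ ≤ 9 * x * P := by
  have hP0 : 0 < P := by linarith
  have h0 : 0 < x * P := by positivity
  have h1 : (x * P) ^ 2 ≤ (1 / 128) ^ 2 := pow_le_pow_left₀ h0.le hxP 2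
  have h2 : 72 * x ^ 2 * P ^ 2 = 72 * (x * P) ^ 2 := by ring
  have h3 : (9 * x * P) ^ 2 = 81 * (x * P) ^ 2 := by ring
  have h4 : 0 < (x * P) ^ 2 := by positivity
  apply rpow_half (by positivity) _ ht0 (by positivity)
  · rw [h3, h2]
    linarith
  · rw [h2]
    norm_num at h1
    linarith

lemma c1aux {x y L K Q : ℝ} (hy0 : 0 < y) (hy1 : y ≤ 1) (hx8 : y ^ 8 = x)
    (hL1 : 1 ≤ L) (hK0 : 0 < K) (hK : K * (L ^ 2 * y) ≤ 1) (hQ : 3 + 9 * Q ≤ K) :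
    3 * x + 9 * Q * y ^ 4 ≤ y * L⁻¹ := by
  have hL0 : 0 < L := by linarith
  have h8 : y ^ 8 ≤ y ^ 4 := pow_le_pow_of_le_one hy0.le hy1 (by norm_num)
  have e5 : 3 * x + 9 * Q * y ^ 4 ≤ (3 + 9 * Q) * y ^ 4 := by
    rw [← hx8]
    linarith
  have e6 : (3 + 9 * Q) * y ^ 4 ≤ K * y ^ 4 := mul_le_mul_of_nonneg_right hQ (by positivity)
  have h3 : y ^ 3 ≤ y := by
    calc y ^ 3 ≤ y ^ 1 := pow_le_pow_of_le_one hy0.le hy1 (by norm_num)
      _ = y := pow_one y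
  have h4 : L ≤ L ^ 2 := le_self_pow₀ hL1 (by norm_num)
  have e7 : K * y ^ 4 * L ≤ y := by
    calc K * y ^ 4 * L = K * (L * y ^ 3) * y := by ring
      _ ≤ K * (L ^ 2 * y) * y := by gcongr
      _ ≤ 1 * y := mul_le_mul_of_nonneg_right hK hy0.le
      _ = y := one_mul y
  have e10 : K * y ^ 4 ≤ y * L⁻¹ := by
    rw [← div_eq_mul_inv, le_div_iff₀ hL0]
    exact e7
  linarith

/-- the bounds of the number of cells -/
lemma scales {x L : ℝ} (hx0 : 0 < x) (hx1 : x ≤ 1 / 2) (hL : Real.log (1 / x) = L)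
    (hL1 : 1 ≤ L) (hLx : 2 * (L ^ 2 * x) ≤ 1) :
    Real.exp (L⁻¹ / x) ≤ (Mx x : ℝ) ∧ L⁻¹ / x ≤ Real.log (Mx x) ∧
    Real.log (Mx x) ≤ L⁻¹ / x + 1 ∧ (1 : ℝ) ≤ nx0 x ∧ (Jx x : ℝ) ≤ L ^ 2 + 1 ∧
    Real.exp (L / x) ≤ ((Mx x ^ Jx x * nx0 x : ℕ) : ℝ) ∧
    Real.log ((Mx x ^ Jx x * nx0 x : ℕ) : ℝ) * x ≤ 2 * L + 4 := by
  have hL0 : 0 < L := by linarith
  have hh : hx x = L⁻¹ := by unfold hx; rw [hL]
  have hMl : Real.exp (L⁻¹ / x) ≤ (Mx x : ℝ) := by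
    unfold Mx
    rw [hh]
    exact Nat.le_ceil _
  have hMu : (Mx x : ℝ) ≤ Real.exp (L⁻¹ / x) + 1 := by
    unfold Mx
    rw [hh]
    exact (Nat.ceil_lt_add_one (Real.exp_pos _).le).le
  have hMpos : (0 : ℝ) < Mx x := lt_of_lt_of_le (Real.exp_pos _) hMl
  have hlogM1 : L⁻¹ / x ≤ Real.log (Mx x) := by
    rw [Real.le_log_iff_exp_le hMpos]
    exact hMl
  have hlogM2 : Real.log (Mx x) ≤ L⁻¹ / x + 1 := by
    rw [Real.log_le_iff_le_exp hMpos]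
    exact hMu.trans (Pool.Agent.H85.CE.exp_add_one_le _ (by positivity))
  have hn : (1 : ℝ) ≤ nx0 x := by
    have : 0 < nx0 x := Nat.ceil_pos.2 (Real.exp_pos _)
    exact_mod_cast this
  have hn0 : (0 : ℝ) < nx0 x := by linarith
  have hJ : (Jx x : ℝ) ≤ L ^ 2 + 1 := by
    unfold Jx
    rw [hL]
    exact (Nat.ceil_lt_add_one (by positivity)).le
  have hJ' : L ^ 2 ≤ (Jx x : ℝ) := by
    unfold Jx
    rw [hL]
    exact Nat.le_ceil _
  have hlogn : Real.log (nx0 x) ≤ x ^ (-(1 / 2) : ℝ) + 1 := by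
    rw [Real.log_le_iff_le_exp hn0]
    have h1 : (nx0 x : ℝ) ≤ Real.exp (x ^ (-(1 / 2) : ℝ)) + 1 :=
      (Nat.ceil_lt_add_one (Real.exp_pos _).le).le
    exact h1.trans (Pool.Agent.H85.CE.exp_add_one_le _ (by positivity))
  have hlog : Real.log ((Mx x ^ Jx x * nx0 x : ℕ) : ℝ) =
      Jx x * Real.log (Mx x) + Real.log (nx0 x) := by
    push_cast
    rw [Real.log_mul (by positivity) hn0.ne', Real.log_pow]
  refine ⟨hMl, hlogM1, hlogM2, hn, hJ, ?_, ?_⟩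
  · have hprod : (0 : ℝ) < ((Mx x ^ Jx x * nx0 x : ℕ) : ℝ) := by
      push_cast
      positivity
    rw [← Real.le_log_iff_exp_le hprod, hlog]
    have e1 : L / x = L ^ 2 * (L⁻¹ / x) := by field_simp
    have e2 : L ^ 2 * (L⁻¹ / x) ≤ Jx x * Real.log (Mx x) :=
      mul_le_mul hJ' hlogM1 (by positivity) (by positivity)
    have e3 : 0 ≤ Real.log (nx0 x) := Real.log_nonneg hn
    linarith
  · rw [hlog, add_mul]
    have e1 : Jx x * Real.log (Mx x) * x ≤ (L ^ 2 + 1) * (L⁻¹ / x + 1) * x := by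
      apply mul_le_mul_of_nonneg_right _ hx0.le
      exact mul_le_mul hJ hlogM2 (le_trans (by positivity) hlogM1) (by positivity)
    have e2 : (L ^ 2 + 1) * (L⁻¹ / x + 1) * x = L + L⁻¹ + L ^ 2 * x + x := by
      field_simp
      ring
    have e3 : L⁻¹ ≤ 1 := inv_le_one_of_one_le₀ hL1
    have e4 : Real.log (nx0 x) * x ≤ (x ^ (-(1 / 2) : ℝ) + 1) * x :=
      mul_le_mul_of_nonneg_right hlogn hx0.le
    have e5 : x ^ (-(1 / 2) : ℝ) * x ≤ 1 := by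
      have h1 : x ^ (-(1 / 2) : ℝ) * x = x ^ (1 / 2 : ℝ) := by
        nth_rewrite 2 [← Real.rpow_one x]
        rw [← Real.rpow_add hx0]
        norm_num
      rw [h1]
      exact Real.rpow_le_one hx0.le (by linarith) (by norm_num)
    have e6 : (x ^ (-(1 / 2) : ℝ) + 1) * x = x ^ (-(1 / 2) : ℝ) * x + x := by ring
    linarith

lemma core {ς ϑ Nb C κc x α L y P S K : ℝ} (hς : 0 < ς) (hϑ : 0 < ϑ) (hϑ1 : ϑ ≤ 1)
    (hNb : 1 ≤ Nb) (hC : 1 ≤ C) (hκ : 0 < κc) (hα : 1 - x ^ 4 ≤ α) (hα1 : α ≤ 1)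
    (hx0 : 0 < x) (hx8 : y ^ 8 = x) (hy : x ^ (1 / 8 : ℝ) = y) (hy0 : 0 < y) (hy1 : y ≤ 1)
    (hL : Real.log (1 / x) = L) (hL1 : 1 ≤ L) (hP : P = C * Nb) (hS : S = 1 + 1 / ς)
    (hLP : 16 * P ≤ L) (hLN : Nb ≤ κc * L) (hK : K * (L ^ 2 * y) ≤ 1)
    (k1 : 3 + 9 * P * S ≤ K) (k2 : 4 * (2 * (4 + 1 / ς) + 3 + 6 * ς) ≤ K)
    (k3 : 27 * P * S ≤ K) (k4 : 6 * P ^ 2 ≤ K) (k5 : 128 * P ≤ K) (k6 : 144 * P ≤ ϑ * K)
    (k7 : 2 * Nb ≤ κc * K) (k8 : 4 * ς ≤ K) (hxs : 4 * P * (3 + 1 / ς) * x ^ ς ≤ 1) :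
    Pre α (ς * x) x ϑ (hx x) (C * Nb) (x ^ (1 / 8 : ℝ)) (Mx x) (Xx ς x) ∧ hx x * Nb ≤ κc ∧
    Jx x * x ^ (1 / 8 : ℝ) * Nb ≤ κc ∧
    4 * (x * (C * Nb) * (1 / ((Mx x ^ Jx x * nx0 x : ℕ) : ℝ)) ^ (ς * x) *
      (3 + 1 / (ς * x))) ≤ 1 ∧ te α (ς * x) < 1 ∧ 1 ≤ nx0 x := by
  have hL0 : 0 < L := by linarith
  have hP1 : 1 ≤ P := by rw [hP]; exact one_le_mul_of_one_le_of_one_le hC hNb
  have hςi : 0 < 1 / ς := by positivity
  have hS1 : 1 ≤ S := by rw [hS]; linarith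
  have hK0 : 0 < K := by linarith
  -- powers of `y`
  have hyL : y ≤ L ^ 2 * y := le_mul_of_one_le_left hy0.le (one_le_pow₀ hL1)
  have yj : ∀ j : ℕ, 1 ≤ j → y ^ j ≤ y := fun j hj => by
    calc y ^ j ≤ y ^ 1 := pow_le_pow_of_le_one hy0.le hy1 hj
      _ = y := pow_one y
  have ky : ∀ a : ℝ, a ≤ K → 0 ≤ a → ∀ j : ℕ, 1 ≤ j → a * y ^ j ≤ 1 := by
    intro a ha ha0 j hj
    calc a * y ^ j ≤ K * (L ^ 2 * y) := mul_le_mul ha ((yj j hj).trans hyL) (by positivity) hK0.le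
      _ ≤ 1 := hK
  have hx1 : x ≤ 1 / 2 := by
    have := ky 2 (by linarith) (by norm_num) 8 (by norm_num)
    rw [hx8] at this
    linarith
  have hxy : x ≤ y := by rw [← hx8]; exact yj 8 (by norm_num)
  have hςx : ς * x ≤ 1 / 4 := by
    have := ky (4 * ς) k8 (by positivity) 8 (by norm_num)
    rw [hx8] at this
    linarith
  have hLx : 4 * (2 * (4 + 1 / ς) + 3 + 6 * ς) * (L ^ 2 * x) ≤ 1 := by
    refine le_trans (mul_le_mul k2 (mul_le_mul_of_nonneg_left hxy (by positivity))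
      (by positivity) hK0.le) hK
  have hLx2 : 2 * (L ^ 2 * x) ≤ 1 := by
    refine le_trans (mul_le_mul_of_nonneg_right ?_ (by positivity)) hLx
    linarith
  obtain ⟨hMl, hlogM1, hlogM2, hn, hJ, hbig, hX⟩ := scales hx0 hx1 hL hL1 hLx2
  have hMpos : (0 : ℝ) < Mx x := lt_of_lt_of_le (Real.exp_pos _) hMl
  have hh : hx x = L⁻¹ := by unfold hx; rw [hL]
  have hh0 : 0 < L⁻¹ := by positivity
  have hexpL : Real.exp L = 1 / x := by
    rw [← hL]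
    exact Real.exp_log (by positivity)
  have hexpN : Real.exp (-L) = x := by rw [Real.exp_neg, hexpL, one_div, inv_inv]
  -- the exponent
  have hx4 : x ^ 4 ≤ 1 / 16 := by
    calc x ^ 4 ≤ (1 / 2) ^ 4 := pow_le_pow_left₀ hx0.le hx1 4
      _ = 1 / 16 := by norm_num
  have ht0 : 1 / 2 ≤ te α (ς * x) := by
    unfold te
    rw [le_div_iff₀ (by linarith)]
    have : 0 < ς * x := by positivity
    linarith
  have ht1 : te α (ς * x) ≤ 3 / 4 := by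
    unfold te
    rw [div_le_iff₀ (by linarith)]
    linarith
  set θ : ℝ := te α (ς * x) with hθ
  -- the decay
  have hdec : (2 * (4 + 1 / ς) + 3 + 6 * ς) * L ≤ L⁻¹ / (4 * x) := by
    rw [le_div_iff₀ (by positivity), le_inv_comm₀ (by positivity) hL0]
    have e1 : (2 * (4 + 1 / ς) + 3 + 6 * ς) * L * (4 * x) =
        4 * (2 * (4 + 1 / ς) + 3 + 6 * ς) * (L ^ 2 * x) * L⁻¹ := by
      field_simp
    rw [e1]
    have e2 : 0 < 4 * (2 * (4 + 1 / ς) + 3 + 6 * ς) * (L ^ 2 * x) := by positivity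
    rw [mul_inv, inv_inv]
    exact le_mul_of_one_le_left hL0.le (one_le_inv₀ e2 |>.2 hLx)
  have hMθ : (Mx x : ℝ) ^ (θ - 1) ≤ Real.exp (-(L⁻¹ / (4 * x))) := by
    rw [Real.rpow_def_of_pos hMpos]
    apply Real.exp_le_exp.2
    have h1 : Real.log (Mx x) * (θ - 1) ≤ L⁻¹ / x * (θ - 1) :=
      mul_le_mul_of_nonpos_right hlogM1 (by linarith)
    have h2 : L⁻¹ / x * (θ - 1) ≤ L⁻¹ / x * (-(1 / 4)) :=
      mul_le_mul_of_nonneg_left (by linarith) (by positivity)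
    have h3 : L⁻¹ / x * (-(1 / 4)) = -(L⁻¹ / (4 * x)) := by
      field_simp
    linarith
  have hMθ0 : 0 ≤ (Mx x : ℝ) ^ (θ - 1) := by positivity
  have hMx : (Mx x : ℝ) ^ (θ - 1) ≤ x := by
    refine hMθ.trans (le_of_le_of_eq (Real.exp_le_exp.2 ?_) hexpN)
    have : 1 * L ≤ (2 * (4 + 1 / ς) + 3 + 6 * ς) * L :=
      mul_le_mul_of_nonneg_right (by linarith) hL0.le
    linarith
  have hMx1 : 1 / x ≤ (Mx x : ℝ) := by
    rw [← hexpL]
    refine le_trans (Real.exp_le_exp.2 ?_) hMl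
    have e1 : 1 * L ≤ (2 * (4 + 1 / ς) + 3 + 6 * ς) * L :=
      mul_le_mul_of_nonneg_right (by linarith) hL0.le
    have e2 : L⁻¹ / (4 * x) ≤ L⁻¹ / x :=
      div_le_div_of_nonneg_left hh0.le hx0 (by linarith)
    linarith
  have hsi : 1 / (ς * x) = (1 / ς) / x := by field_simp
  have hx1' : 1 ≤ 1 / x := by rw [le_div_iff₀ hx0]; linarith
  have hSs : 1 + 1 / (ς * x) ≤ S / x := by
    rw [hsi, hS, add_div]
    linarith
  have hBs : 4 + 1 / (ς * x) ≤ (4 + 1 / ς) / x := by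
    rw [hsi, add_div]
    have : 4 ≤ 4 / x := by rw [le_div_iff₀ hx0]; linarith
    linarith
  have hPc : C * Nb = P := hP.symm
  rw [hPc, hh, hy]
  have hxP : x * P ≤ 1 / 128 := by
    have := ky (128 * P) k5 (by positivity) 8 (by norm_num)
    rw [hx8] at this
    linarith
  have hXx : Xx ς x ≤ Real.exp (ς * (2 * L + 4)) := by
    unfold Xx
    have hprod : (0 : ℝ) < ((Mx x ^ Jx x * nx0 x : ℕ) : ℝ) :=
      lt_of_lt_of_le (Real.exp_pos _) hbig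
    rw [Real.rpow_def_of_pos hprod]
    apply Real.exp_le_exp.2
    have : Real.log ((Mx x ^ Jx x * nx0 x : ℕ) : ℝ) * (ς * x) =
        ς * (Real.log ((Mx x ^ Jx x * nx0 x : ℕ) : ℝ) * x) := by ring
    rw [this]
    exact mul_le_mul_of_nonneg_left hX hς.le
  have hX0 : 0 ≤ Xx ς x := by unfold Xx; positivity
  refine ⟨⟨by linarith, hα1, by positivity, hx0, hϑ, hϑ1, hh0, hP1, hy0, hy1, ?_, ht0, ht1,
    ?_, ?_, ?_, ?_, ?_, ?_, ?_, ?_⟩, ?_, ?_, ?_, by linarith, by exact_mod_cast hn⟩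
  · have : 0 < Mx x := by exact_mod_cast hMpos
    exact this
  · -- hM
    calc L⁻¹ = x * (L⁻¹ / x) := by field_simp
      _ ≤ x * Real.log (Mx x) := mul_le_mul_of_nonneg_left hlogM1 hx0.le
  · -- cδ
    have e1 : 144 * P * (L ^ 2 * y) ≤ ϑ * K * (L ^ 2 * y) :=
      mul_le_mul_of_nonneg_right k6 (by positivity)
    have e2 : ϑ * K * (L ^ 2 * y) ≤ ϑ * 1 := by
      rw [mul_assoc]
      exact mul_le_mul_of_nonneg_left hK hϑ.le
    have e3 : 144 * P * x ≤ 144 * P * (L ^ 2 * y) :=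
      mul_le_mul_of_nonneg_left (hxy.trans hyL) (by positivity)
    linarith
  · -- c1
    have e1 : (72 * x * P) ^ θ ≤ 9 * P * y ^ 4 := pw1 hy0 hx0 hx8 hP1 ht0 hxP
    have e2 : x * ((72 * x * P) ^ θ * (1 + 1 / (ς * x))) ≤ 9 * P * S * y ^ 4 := by
      calc x * ((72 * x * P) ^ θ * (1 + 1 / (ς * x))) ≤ x * (9 * P * y ^ 4 * (S / x)) := by
            apply mul_le_mul_of_nonneg_left _ hx0.le
            exact mul_le_mul e1 hSs (by positivity) (by positivity)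
        _ = 9 * P * S * y ^ 4 := by field_simp
    have e3 : x * Real.log (Mx x) ≤ L⁻¹ + x := by
      calc x * Real.log (Mx x) ≤ x * (L⁻¹ / x + 1) := mul_le_mul_of_nonneg_left hlogM2 hx0.le
        _ = L⁻¹ + x := by field_simp
    have e4 : 3 * x + 9 * P * S * y ^ 4 ≤ y * L⁻¹ := by
      have := c1aux hy0 hy1 hx8 hL1 hK0 hK (Q := P * S) (by rwa [← mul_assoc])
      rwa [← mul_assoc 9 P S] at this
    have e11 : x * (2 + Real.log (Mx x) + (72 * x * P) ^ θ * (1 + 1 / (ς * x))) =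
        2 * x + x * Real.log (Mx x) + x * ((72 * x * P) ^ θ * (1 + 1 / (ς * x))) := by ring
    rw [e11, add_mul, one_mul]
    linarith
  · -- c2
    have e1 : L⁻¹ * (2 * P) ≤ 1 / 8 := by
      rw [inv_mul_le_iff₀ hL0]
      linarith
    have e2 : 0 ≤ L⁻¹ * (2 * P) := by positivity
    have e3 : (1 + y) * L⁻¹ * (2 * P) = L⁻¹ * (2 * P) + y * (L⁻¹ * (2 * P)) := by ring
    have e4 : y * (L⁻¹ * (2 * P)) ≤ 1 * (L⁻¹ * (2 * P)) := mul_le_mul_of_nonneg_right hy1 e2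
    rw [e3]
    linarith
  · -- c3
    have e1 : (4 * x * P) ^ θ ≤ 2 * P * y ^ 4 := pw2 hy0 hx0 hx8 hP1 ht0 hxP
    have e2 : (72 * x ^ 2 * P ^ 2) ^ θ ≤ 9 * x * P := pw3 hx0 hP1 ht0 hxP
    have e3 : (72 * x ^ 2 * P ^ 2) ^ θ * (1 + 1 / (ς * x)) * (Mx x : ℝ) ^ (θ - 1) ≤
        9 * P * S * x := by
      calc (72 * x ^ 2 * P ^ 2) ^ θ * (1 + 1 / (ς * x)) * (Mx x : ℝ) ^ (θ - 1) ≤
          9 * x * P * (S / x) * x := by gcongr
        _ = 9 * P * S * x := by field_simp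
    have q1 := ky (12 * P) (by linarith) (by positivity) 7 (by norm_num)
    have q2 := ky (12 * P) (by linarith) (by positivity) 3 (by norm_num)
    have q3 := ky (27 * P * S) k3 (by positivity) 7 (by norm_num)
    have r1 : 4 * x * P = 1 / 3 * (12 * P * y ^ 7) * y := by rw [← hx8]; ring
    have r2 : 2 * P * y ^ 4 = 1 / 6 * (12 * P * y ^ 3) * y := by ring
    have r3 : 9 * P * S * x = 1 / 3 * (27 * P * S * y ^ 7) * y := by rw [← hx8]; ring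
    have s1 := mul_le_mul_of_nonneg_right q1 hy0.le
    have s2 := mul_le_mul_of_nonneg_right q2 hy0.le
    have s3 := mul_le_mul_of_nonneg_right q3 hy0.le
    linarith
  · -- c4
    have z1 : (x * P) ^ θ ≤ 1 := Real.rpow_le_one (by positivity) (by linarith) (by linarith)
    have z2 : 2 * (4 + 1 / ς) ≤ Real.exp (2 * (4 + 1 / ς) * L) := by
      have h1 := Real.add_one_le_exp (2 * (4 + 1 / ς) * L)
      have h2 : 2 * (4 + 1 / ς) * 1 ≤ 2 * (4 + 1 / ς) * L :=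
        mul_le_mul_of_nonneg_left hL1 (by positivity)
      linarith
    have z3 : ς * (2 * L + 4) ≤ 6 * ς * L := by
      have : ς * 4 ≤ ς * (4 * L) := mul_le_mul_of_nonneg_left (by linarith) hς.le
      linarith
    calc 2 * (x * P) ^ θ * (4 + 1 / (ς * x)) * (Mx x : ℝ) ^ (θ - 1) * Xx ς x / x
        ≤ 2 * 1 * ((4 + 1 / ς) / x) * Real.exp (-(L⁻¹ / (4 * x))) *
            Real.exp (ς * (2 * L + 4)) / x := by
          gcongr
      _ = 2 * (4 + 1 / ς) * (1 / x) * (1 / x) * Real.exp (-(L⁻¹ / (4 * x))) *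
            Real.exp (ς * (2 * L + 4)) := by
          field_simp
      _ = 2 * (4 + 1 / ς) * Real.exp L * Real.exp L * Real.exp (-(L⁻¹ / (4 * x))) *
            Real.exp (ς * (2 * L + 4)) := by rw [hexpL]
      _ ≤ Real.exp (2 * (4 + 1 / ς) * L) * Real.exp L * Real.exp L *
            Real.exp (-(L⁻¹ / (4 * x))) * Real.exp (ς * (2 * L + 4)) := by
          gcongr
      _ = Real.exp (2 * (4 + 1 / ς) * L + L + L + (-(L⁻¹ / (4 * x))) + ς * (2 * L + 4)) := by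
          rw [Real.exp_add, Real.exp_add, Real.exp_add, Real.exp_add]
      _ ≤ Real.exp (-L) := Real.exp_le_exp.2 (by linarith)
      _ = x := hexpN
      _ ≤ y := hxy
  · -- c5
    have e1 : 2 * P / (Mx x : ℝ) ≤ 2 * P * x := by
      rw [div_le_iff₀ hMpos]
      have h1 : 1 ≤ x * (Mx x : ℝ) := by
        rw [div_le_iff₀ hx0] at hMx1
        linarith
      have h2 : 2 * P * 1 ≤ 2 * P * (x * (Mx x : ℝ)) :=
        mul_le_mul_of_nonneg_left h1 (by positivity)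
      linarith
    have e2 := ky (6 * P ^ 2) k4 (by positivity) 7 (by norm_num)
    have e3 := mul_le_mul_of_nonneg_right e2 hy0.le
    have e4 : 2 * P * x + 4 * x * P ^ 2 ≤ 6 * P ^ 2 * x := by
      have h1 : P * x ≤ P ^ 2 * x :=
        mul_le_mul_of_nonneg_right (le_self_pow₀ hP1 (by norm_num)) hx0.le
      linarith
    have e5 : 6 * P ^ 2 * x = 6 * P ^ 2 * y ^ 7 * y := by rw [← hx8]; ring
    linarith
  · -- c6
    have e2 := ky (128 * P) k5 (by positivity) 7 (by norm_num)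
    have e3 := mul_le_mul_of_nonneg_right e2 hy0.le
    have e5 : 128 * x * P = 128 * P * y ^ 7 * y := by rw [← hx8]; ring
    linarith
  · rw [inv_mul_le_iff₀ hL0]
    linarith
  · have e1 : (Jx x : ℝ) ≤ 2 * L ^ 2 := by
      have : 1 ≤ L ^ 2 := one_le_pow₀ hL1
      linarith
    have e2 : (Jx x : ℝ) * y * Nb ≤ 2 * L ^ 2 * y * Nb := by gcongr
    have e3 : 2 * Nb * (L ^ 2 * y) ≤ κc * K * (L ^ 2 * y) :=
      mul_le_mul_of_nonneg_right k7 (by positivity)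
    have e4 : κc * K * (L ^ 2 * y) ≤ κc * 1 := by
      rw [mul_assoc]
      exact mul_le_mul_of_nonneg_left hK hκ.le
    linarith
  · have hp : (1 / ((Mx x ^ Jx x * nx0 x : ℕ) : ℝ)) ^ (ς * x) ≤ x ^ ς := by
      have h2 : 1 / ((Mx x ^ Jx x * nx0 x : ℕ) : ℝ) ≤ Real.exp (-(L / x)) := by
        rw [Real.exp_neg, one_div]
        exact inv_anti₀ (Real.exp_pos _) hbig
      have h3 : (0 : ℝ) ≤ 1 / ((Mx x ^ Jx x * nx0 x : ℕ) : ℝ) := by positivity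
      refine (Real.rpow_le_rpow h3 h2 (by positivity)).trans (le_of_eq ?_)
      rw [← Real.exp_mul]
      calc Real.exp (-(L / x) * (ς * x)) = Real.exp (-L * ς) := by
            congr 1
            field_simp
        _ = Real.exp (-L) ^ ς := Real.exp_mul _ _
        _ = x ^ ς := by rw [hexpN]
    have hi : x * (3 + 1 / (ς * x)) ≤ 3 + 1 / ς := by
      have : x * (3 + 1 / (ς * x)) = 3 * x + 1 / ς := by field_simp
      rw [this]
      linarith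
    calc 4 * (x * P * (1 / ((Mx x ^ Jx x * nx0 x : ℕ) : ℝ)) ^ (ς * x) * (3 + 1 / (ς * x))) =
        4 * P * (x * (3 + 1 / (ς * x))) *
          (1 / ((Mx x ^ Jx x * nx0 x : ℕ) : ℝ)) ^ (ς * x) := by ring
      _ ≤ 4 * P * (3 + 1 / ς) * x ^ ς := by gcongr
      _ ≤ 1 := hxs

theorem pf_NM1 : T_NM1 := by
  intro ς ϑ Nb C κc hς hϑ hϑ1 hNb hC hκ
  set P : ℝ := C * Nb with hP
  set S : ℝ := 1 + 1 / ς with hS
  have hP1 : 1 ≤ P := one_le_mul_of_one_le_of_one_le hC hNb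
  have hςi : 0 < 1 / ς := by positivity
  have hS1 : 1 ≤ S := by rw [hS]; linarith
  set K : ℝ := 3 + 27 * P * S + 4 * (2 * (4 + 1 / ς) + 3 + 6 * ς) + 128 * P ^ 2 +
    144 * P / ϑ + 2 * Nb / κc with hK
  have hPP : P ≤ P ^ 2 := le_self_pow₀ hP1 (by norm_num)
  have hK0 : 0 < K := by positivity
  have t1 : 0 < 27 * P * S := by positivity
  have t2 : 0 < 4 * (2 * (4 + 1 / ς) + 3 + 6 * ς) := by positivity
  have t3 : 0 < 128 * P ^ 2 := by positivity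
  have t4 : 0 < 144 * P / ϑ := by positivity
  have t5 : 0 < 2 * Nb / κc := by positivity
  have v1 := Pool.Agent.H85.CE.ev_pow 2 (by norm_num) (1 / 8) (1 / K) (by norm_num)
    (by positivity)
  have v2 := Pool.Agent.H85.CE.ev_pow 1 le_rfl ς (1 / (4 * P * (3 + 1 / ς))) hς
    (by positivity)
  have v3 := Pool.Agent.H85.CE.ev_Lg (max 1 (max (16 * P) (Nb / κc)))
  have v0 : ∀ᶠ x in 𝓝[>] (0 : ℝ), x ≤ 1 :=
    eventually_nhdsWithin_of_eventually_nhds (eventually_le_nhds (by norm_num))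
  have hall := v1.and (v2.and (v3.and v0))
  obtain ⟨x0, hx0, hsub⟩ := mem_nhdsGT_iff_exists_Ioo_subset.1 hall
  refine ⟨x0, hx0, fun x hx hxx α hα hα1 => ?_⟩
  obtain ⟨w1, w2, w3, w0⟩ := hsub ⟨hx, hxx⟩
  rw [max_le_iff, max_le_iff] at w3
  obtain ⟨w3, w4, w5⟩ := w3
  have hL0 : 0 < Pool.Agent.H99.CE.Lg x := by linarith
  refine core (L := Pool.Agent.H99.CE.Lg x) (y := x ^ (1 / 8 : ℝ)) (P := P) (S := S) (K := K)
    hς hϑ hϑ1 hNb hC hκ hα hα1 hx ?_ rfl (Real.rpow_pos_of_pos hx _)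
    (Real.rpow_le_one hx.le w0 (by norm_num)) rfl w3 hP hS w4 ?_ ?_ ?_ ?_ ?_ ?_ ?_ ?_ ?_ ?_ ?_
  · rw [← Real.rpow_natCast, ← Real.rpow_mul hx.le]
    norm_num
  · rw [div_le_iff₀ hκ] at w5
    linarith
  · rw [le_div_iff₀ hK0] at w1
    linarith
  · rw [hK]; linarith [mul_pos (by linarith : 0 < P) (by linarith : 0 < S)]
  · rw [hK]; linarith
  · rw [hK]; linarith
  · rw [hK]; linarith
  · rw [hK]; linarith
  · have e1 : ϑ * (144 * P / ϑ) = 144 * P := by field_simp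
    have e2 : ϑ * (144 * P / ϑ) ≤ ϑ * K := mul_le_mul_of_nonneg_left (by rw [hK]; linarith) hϑ.le
    linarith
  · have e1 : κc * (2 * Nb / κc) = 2 * Nb := by field_simp
    have e2 : κc * (2 * Nb / κc) ≤ κc * K := mul_le_mul_of_nonneg_left (by rw [hK]; linarith) hκ.le
    linarith
  · rw [hK]; linarith
  · rw [pow_one, le_div_iff₀ (by positivity)] at w2
    have e1 : x ^ ς * 1 ≤ x ^ ς * Pool.Agent.H99.CE.Lg x :=
      mul_le_mul_of_nonneg_left w3 (Real.rpow_nonneg hx.le _)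
    have e2 : 4 * P * (3 + 1 / ς) * x ^ ς ≤
        4 * P * (3 + 1 / ς) * (x ^ ς * Pool.Agent.H99.CE.Lg x) :=
      mul_le_mul_of_nonneg_left (by linarith) (by positivity)
    linarith

end Pool.Agent.H46.EX
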