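import Pool.Agent.H98.EX.PTargets
import Pool.Agent.H73.EX.HFD

/-!
# Row PC1 of the board exa_modules (helper46)
-/

set_option autoImplicit false

open MeasureTheory ProbabilityTheory Filter Topology
open scoped ENNReal
open Pool.Agent.H95 Pool.Agent.H95.Cop
open Pool.Agent.H55.CG (Mo)
open Pool.Agent.H98.EX

namespace Pool.Agent.H46.EX

lemma meas_Sy (k : ℕ) (ϑ : ℝ) (a b : ℕ) : Measurable (fun x : ℕ → ℝ => Sy k ϑ x a b) := by
  unfold Sy
  exact ((Pool.Agent.H73.EX.meas_H a b).div_const 2).add_const _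

lemma Sy_shift (k : ℕ) (ϑ : ℝ) (x : ℕ → ℝ) (t n : ℕ) :
    Sy k ϑ (shift t x) 0 n = Sy k ϑ x t (t + n) := by
  unfold Sy
  rw [H_shift, zero_add, add_comm n t]
  push_cast
  ring

lemma Sy_add (k : ℕ) (ϑ : ℝ) (x : ℕ → ℝ) {a b c : ℕ} (hab : a ≤ b) (hbc : b ≤ c) :
    Sy k ϑ x a c = Sy k ϑ x a b + Sy k ϑ x b c := by
  unfold Sy
  rw [← H_add x hab hbc]
  ring

lemma Sy_zero (k : ℕ) (ϑ : ℝ) (x : ℕ → ℝ) : Sy k ϑ x 0 0 = 0 := by
  unfold Sy
  rw [H_self]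
  simp

/-- the moments of one cell -/
noncomputable def cm (ϖ : Measure ℝ) (k : ℕ) (ϑ v : ℝ) : ℝ :=
  Real.exp (v * ϑ / 2) * Mo ϖ (v / 2) ^ k

lemma expSy {ϖ : Measure ℝ} {k : ℕ} {ϑ σ τ ω : ℝ} (h : PB ϖ k ϑ σ τ ω) (v : ℝ) (m : ℕ) :
    Integrable (fun x : ℕ → ℝ => Real.exp (v * Sy k ϑ x 0 (m * k))) (iid ϖ) ∧
      ∫ x : ℕ → ℝ, Real.exp (v * Sy k ϑ x 0 (m * k)) ∂(iid ϖ) = cm ϖ k ϑ v ^ m := by
  have := h.ep.prob
  obtain ⟨h1, h2⟩ := Pool.Agent.H73.EX.integrable_expH ϖ h.ep.exp (v / 2) (m * k)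
  have hk : (k : ℝ) ≠ 0 := by
    have := h.k1
    positivity
  have he : ∀ x : ℕ → ℝ, Real.exp (v * Sy k ϑ x 0 (m * k)) =
      Real.exp (v / 2 * H x 0 (m * k)) * Real.exp (v * ϑ / 2) ^ m := by
    intro x
    rw [← Real.exp_nat_mul, ← Real.exp_add]
    congr 1
    unfold Sy
    push_cast
    field_simp
    ring
  simp_rw [he]
  refine ⟨h1.mul_const _, ?_⟩
  rw [integral_mul_const, h2]
  unfold cm
  rw [mul_pow, ← pow_mul, mul_comm k m, mul_comm]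

lemma cm_le {ϖ : Measure ℝ} {k : ℕ} {ϑ σ τ ω : ℝ} (h : PB ϖ k ϑ σ τ ω) {v : ℝ} (hv : |v| ≤ 4) :
    cm ϖ k ϑ v ≤ Real.exp (ϑ * v * (1 / 4 + v / 2 + σ) + τ) := by
  have h1 := h.ep.up (v / 2) (by rw [abs_div, abs_two]; linarith)
  unfold cm
  calc Real.exp (v * ϑ / 2) * Mo ϖ (v / 2) ^ k ≤
      Real.exp (v * ϑ / 2) *
        Real.exp (ϑ * (2 * (v / 2) ^ 2 - v / 2 / 2 + 2 * σ * (v / 2)) + τ) := by
        gcongr
    _ = _ := by
      rw [← Real.exp_add]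
      congr 1
      ring

lemma cm_nonneg (ϖ : Measure ℝ) (k : ℕ) (ϑ v : ℝ) : 0 ≤ cm ϖ k ϑ v := by
  unfold cm
  have : 0 ≤ Mo ϖ (v / 2) := integral_nonneg fun z => (Real.exp_pos _).le
  positivity

lemma cm_neg {ϖ : Measure ℝ} {k : ℕ} {ϑ σ τ ω : ℝ} (h : PB ϖ k ϑ σ τ ω) :
    cm ϖ k ϑ (-(1 / 4)) ≤ 1 := by
  refine (cm_le h (by rw [abs_neg, abs_of_nonneg] <;> norm_num)).trans ?_
  rw [Real.exp_le_one_iff]
  have h1 := abs_le.mp h.σω
  have h2 := h.ω1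
  have h3 := h.ϑ0
  have h4 := h.τω
  have h5 := h.ω0
  have h6 : ω ^ 2 ≤ 1 := by nlinarith
  have h7 : τ ≤ ϑ / 2 ^ 10 := by
    refine h4.trans ?_
    have : ω ^ 2 * ϑ ≤ 1 * ϑ := mul_le_mul_of_nonneg_right h6 h3.le
    linarith
  have h8 : -(1 / 4) * (1 / 4 + -(1 / 4) / 2 + σ) ≤ -(7 / 256 : ℝ) := by
    nlinarith [h1.1, h1.2]
  have h9 : ϑ * (-(1 / 4) * (1 / 4 + -(1 / 4) / 2 + σ)) ≤ ϑ * (-(7 / 256 : ℝ)) :=
    mul_le_mul_of_nonneg_left h8 h3.le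
  nlinarith

lemma cm_pos {ϖ : Measure ℝ} {k : ℕ} {ϑ σ τ ω : ℝ} (h : PB ϖ k ϑ σ τ ω) :
    cm ϖ k ϑ (1 / 4) ≤ Real.exp (1 / 2) := by
  refine (cm_le h (by rw [abs_of_nonneg] <;> norm_num)).trans ?_
  rw [Real.exp_le_exp]
  have h1 := abs_le.mp h.σω
  have h2 := h.ω1
  have h3 := h.ϑ0
  have h3' := h.ϑ1
  have h4 := h.τω
  have h5 := h.ω0
  have h6 : ω ^ 2 ≤ 1 := by nlinarith
  have h7 : τ ≤ ϑ / 2 ^ 10 := by
    refine h4.trans ?_
    have : ω ^ 2 * ϑ ≤ 1 * ϑ := mul_le_mul_of_nonneg_right h6 h3.le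
    linarith
  have h8 : 1 / 4 * (1 / 4 + 1 / 4 / 2 + σ) ≤ (1 : ℝ) := by
    nlinarith [h1.1, h1.2]
  have h9 : ϑ * (1 / 4 * (1 / 4 + 1 / 4 / 2 + σ)) ≤ ϑ * (1 : ℝ) :=
    mul_le_mul_of_nonneg_left h8 h3.le
  nlinarith

lemma cm_drift {ϖ : Measure ℝ} {k : ℕ} {ϑ σ τ ω : ℝ} (h : PB ϖ k ϑ σ τ ω) :
    (cm ϖ k ϑ (ω / 8) - 1) / (ω / 8) ≤ ad ϑ ω := by
  have h1 := abs_le.mp h.σω
  have h2 := h.ω1
  have h3 := h.ϑ0
  have h3' := h.ϑ1
  have h4 := h.τω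
  have h5 := h.ω0
  have h0 := h.τ0
  have hle := cm_le h (v := ω / 8) (by rw [abs_of_nonneg] <;> linarith)
  set y : ℝ := ϑ * (ω / 8) * (1 / 4 + ω / 8 / 2 + σ) + τ with hy
  have hy1 : y ≤ (ω / 8) * (ϑ * (1 / 4 + ω * (11 / 128))) := by
    have h6 : ϑ * (ω / 8) * σ ≤ ϑ * (ω / 8) * (ω / 64) :=
      mul_le_mul_of_nonneg_left h1.2 (by positivity)
    have h7 : ω ^ 2 * ϑ / 2 ^ 10 = (ω / 8) * (ϑ * (ω * (1 / 128))) := by ring
    rw [hy]
    nlinarith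
  have hy0 : 0 ≤ y := by
    rw [hy]
    have : 0 ≤ 1 / 4 + ω / 8 / 2 + σ := by linarith [h1.1]
    positivity
  have hb : ϑ * (1 / 4 + ω * (11 / 128)) ≤ ϑ * (1 / 2) := by
    apply mul_le_mul_of_nonneg_left _ h3.le
    linarith
  have hy2 : y ≤ (ω / 8) * (ϑ * (1 / 2)) :=
    hy1.trans (mul_le_mul_of_nonneg_left hb (by positivity))
  have hy3 : y ≤ 1 := by
    refine hy2.trans ?_
    nlinarith
  have hexp : Real.exp y ≤ 1 + y + y ^ 2 := by
    have := Real.abs_exp_sub_one_sub_id_le (x := y) (by rw [abs_of_nonneg hy0]; exact hy3)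
    have := abs_le.mp this
    linarith [this.2]
  rw [div_le_iff₀ (by positivity)]
  have hyy : y ^ 2 ≤ (ω / 8) * (ϑ * (ω / 64)) := by
    have h6 : y ^ 2 ≤ ((ω / 8) * (ϑ * (1 / 2))) * 1 := by
      rw [pow_two]
      exact mul_le_mul hy2 hy3 hy0 (by positivity)
    have h7 : y ^ 2 ≤ ((ω / 8) * (ϑ * (1 / 2))) * ((ω / 8) * (ϑ * (1 / 2))) := by
      rw [pow_two]
      exact mul_le_mul hy2 hy2 hy0 (by positivity)
    refine h7.trans ?_
    have h8 : (ω / 8) * (ϑ * (1 / 2)) * ((ω / 8) * (ϑ * (1 / 2))) =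
        (ω / 8) * (ϑ * (ω / 64)) * (2 * ϑ) := by ring
    rw [h8]
    have h9 : 0 ≤ (ω / 8) * (ϑ * (ω / 64)) := by positivity
    nlinarith
  unfold ad
  have h10 : ϑ / 4 * (1 + ω) * (ω / 8) =
      (ω / 8) * (ϑ * (1 / 4 + ω * (11 / 128))) + (ω / 8) * (ϑ * (ω * (21 / 128))) := by ring
  rw [h10]
  have h11 : (ω / 8) * (ϑ * (ω / 64)) ≤ (ω / 8) * (ϑ * (ω * (21 / 128))) := by
    have : 0 ≤ (ω / 8) * ϑ * ω := by positivity
    nlinarith
  linarith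

lemma Sy_cells (k : ℕ) (ϑ : ℝ) (x : ℕ → ℝ) (m : ℕ) :
    Sy k ϑ x 0 (m * k) = ∑ i ∈ Finset.range m, Sy k ϑ (shift (i * k) x) 0 k := by
  induction m with
  | zero => simp [Sy_zero]
  | succ m ih =>
    rw [Finset.sum_range_succ, ← ih, Sy_shift, add_mul, one_mul,
      Sy_add k ϑ x (Nat.zero_le (m * k)) (Nat.le_add_right _ _)]

lemma mid {ϖ : Measure ℝ} {k : ℕ} {ϑ σ τ ω : ℝ} (h : PB ϖ k ϑ σ τ ω) (m : ℕ) :
    ∫⁻ x, ENNReal.ofReal (Sy k ϑ x 0 (m * k)) ∂(iid ϖ) ≤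
      ENNReal.ofReal (ad ϑ ω * m + 4) := by
  have := h.ep.prob
  have hω := h.ω0
  have hr : 0 < ω / 8 := by positivity
  -- one cell
  obtain ⟨c1, c2⟩ := expSy h (ω / 8) 1
  rw [one_mul, pow_one] at c2
  rw [one_mul] at c1
  have d1 : ∀ i : ℕ, Integrable
      (fun x : ℕ → ℝ => Real.exp (ω / 8 * Sy k ϑ (shift (i * k) x) 0 k)) (iid ϖ) := fun i =>
    (measurePreserving_shift ϖ (i * k)).integrable_comp_of_integrable c1
  have d2 : ∀ i : ℕ, ∫ x : ℕ → ℝ, Real.exp (ω / 8 * Sy k ϑ (shift (i * k) x) 0 k) ∂(iid ϖ) =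
      cm ϖ k ϑ (ω / 8) := by
    intro i
    have hmp := measurePreserving_shift ϖ (i * k)
    rw [← c2]
    have := integral_map (μ := iid ϖ) (φ := shift (i * k))
      (f := fun x : ℕ → ℝ => Real.exp (ω / 8 * Sy k ϑ x 0 k)) hmp.measurable.aemeasurable
      (by rw [hmp.map_eq]; exact c1.aestronglyMeasurable)
    rw [hmp.map_eq] at this
    exact this.symm
  obtain ⟨n1, n2⟩ := expSy h (-(1 / 4)) m
  set G : (ℕ → ℝ) → ℝ := fun x =>
    (∑ i ∈ Finset.range m, (Real.exp (ω / 8 * Sy k ϑ (shift (i * k) x) 0 k) - 1) / (ω / 8)) +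
      4 * Real.exp (-(1 / 4) * Sy k ϑ x 0 (m * k)) with hG
  have d3 : ∀ i : ℕ, Integrable (fun x : ℕ → ℝ =>
      (Real.exp (ω / 8 * Sy k ϑ (shift (i * k) x) 0 k) - 1) / (ω / 8)) (iid ϖ) := fun i =>
    ((d1 i).sub (integrable_const 1)).div_const _
  have d4 : Integrable (fun x : ℕ → ℝ => ∑ i ∈ Finset.range m,
      (Real.exp (ω / 8 * Sy k ϑ (shift (i * k) x) 0 k) - 1) / (ω / 8)) (iid ϖ) :=
    integrable_finsetSum _ fun i _ => d3 i
  have hGi : Integrable G (iid ϖ) := by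
    rw [hG]
    exact Integrable.add d4 (n1.const_mul 4)
  have hGint : ∫ x, G x ∂(iid ϖ) =
      m * ((cm ϖ k ϑ (ω / 8) - 1) / (ω / 8)) + 4 * cm ϖ k ϑ (-(1 / 4)) ^ m := by
    simp only [hG]
    rw [integral_add d4 (n1.const_mul 4), integral_const_mul, n2,
      integral_finsetSum _ fun i _ => d3 i]
    congr 1
    have : ∀ i ∈ Finset.range m,
        ∫ x : ℕ → ℝ, (Real.exp (ω / 8 * Sy k ϑ (shift (i * k) x) 0 k) - 1) / (ω / 8) ∂(iid ϖ) =
        (cm ϖ k ϑ (ω / 8) - 1) / (ω / 8) := by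
      intro i _
      rw [integral_div, integral_sub (d1 i) (integrable_const 1), d2 i]
      simp
    rw [Finset.sum_congr rfl this, Finset.sum_const, Finset.card_range, nsmul_eq_mul]
  have hSG : ∀ x, Sy k ϑ x 0 (m * k) + 4 * Real.exp (-(1 / 4) * Sy k ϑ x 0 (m * k)) ≤ G x := by
    intro x
    rw [hG]
    simp only
    rw [Sy_cells k ϑ x m]
    gcongr with i _
    rw [le_div_iff₀ hr]
    have := Real.add_one_le_exp (ω / 8 * Sy k ϑ (shift (i * k) x) 0 k)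
    linarith
  have hG0 : ∀ x, 0 ≤ G x := by
    intro x
    have h1 := Real.add_one_le_exp (-(1 / 4) * Sy k ϑ x 0 (m * k))
    have h2 := hSG x
    linarith
  have hSG' : ∀ x, Sy k ϑ x 0 (m * k) ≤ G x := by
    intro x
    have h1 := Real.exp_pos (-(1 / 4) * Sy k ϑ x 0 (m * k))
    have h2 := hSG x
    linarith
  calc ∫⁻ x, ENNReal.ofReal (Sy k ϑ x 0 (m * k)) ∂(iid ϖ) ≤
      ∫⁻ x, ENNReal.ofReal (G x) ∂(iid ϖ) :=
        lintegral_mono fun x => ENNReal.ofReal_le_ofReal (hSG' x)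
    _ = ENNReal.ofReal (∫ x, G x ∂(iid ϖ)) :=
        (ofReal_integral_eq_lintegral_ofReal hGi (Eventually.of_forall hG0)).symm
    _ ≤ _ := by
      apply ENNReal.ofReal_le_ofReal
      rw [hGint]
      have h1 := cm_drift h
      have h2 : cm ϖ k ϑ (-(1 / 4)) ^ m ≤ 1 := pow_le_one₀ (cm_nonneg _ _ _ _) (cm_neg h)
      have h3 : (m : ℝ) * ((cm ϖ k ϑ (ω / 8) - 1) / (ω / 8)) ≤ m * ad ϑ ω :=
        mul_le_mul_of_nonneg_left h1 (Nat.cast_nonneg m)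
      linarith

lemma ends {ϖ : Measure ℝ} {k : ℕ} {ϑ σ τ ω : ℝ} (h : PB ϖ k ϑ σ τ ω) (m : ℕ) :
    ∫⁻ x, ENNReal.ofReal |Sy k ϑ x 0 (m * k)| ∂(iid ϖ) ≤
      ENNReal.ofReal (Real.exp (2 * m + 8) / 2) := by
  have := h.ep.prob
  obtain ⟨n1, n2⟩ := expSy h (-(1 / 4)) m
  obtain ⟨p1, p2⟩ := expSy h (1 / 4) m
  set G : (ℕ → ℝ) → ℝ := fun x =>
    4 * Real.exp (1 / 4 * Sy k ϑ x 0 (m * k)) +
      4 * Real.exp (-(1 / 4) * Sy k ϑ x 0 (m * k)) with hG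
  have hGi : Integrable G (iid ϖ) := (p1.const_mul 4).add (n1.const_mul 4)
  have hGint : ∫ x, G x ∂(iid ϖ) =
      4 * cm ϖ k ϑ (1 / 4) ^ m + 4 * cm ϖ k ϑ (-(1 / 4)) ^ m := by
    rw [hG, integral_add (p1.const_mul 4) (n1.const_mul 4), integral_const_mul,
      integral_const_mul, n2, p2]
  have hSG : ∀ x, |Sy k ϑ x 0 (m * k)| ≤ G x := by
    intro x
    rw [hG]
    simp only
    have h1 := Real.add_one_le_exp (1 / 4 * Sy k ϑ x 0 (m * k))
    have h2 := Real.add_one_le_exp (-(1 / 4) * Sy k ϑ x 0 (m * k))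
    have h3 := Real.exp_pos (1 / 4 * Sy k ϑ x 0 (m * k))
    have h4 := Real.exp_pos (-(1 / 4) * Sy k ϑ x 0 (m * k))
    rw [abs_le]
    constructor <;> linarith
  calc ∫⁻ x, ENNReal.ofReal |Sy k ϑ x 0 (m * k)| ∂(iid ϖ) ≤
      ∫⁻ x, ENNReal.ofReal (G x) ∂(iid ϖ) :=
        lintegral_mono fun x => ENNReal.ofReal_le_ofReal (hSG x)
    _ = ENNReal.ofReal (∫ x, G x ∂(iid ϖ)) :=
        (ofReal_integral_eq_lintegral_ofReal hGi
          (Eventually.of_forall fun x => (abs_nonneg _).trans (hSG x))).symm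
    _ ≤ _ := by
      apply ENNReal.ofReal_le_ofReal
      rw [hGint]
      have h2 : cm ϖ k ϑ (-(1 / 4)) ^ m ≤ 1 := pow_le_one₀ (cm_nonneg _ _ _ _) (cm_neg h)
      have h3 : cm ϖ k ϑ (1 / 4) ^ m ≤ Real.exp (2 * m) := by
        calc cm ϖ k ϑ (1 / 4) ^ m ≤ Real.exp (1 / 2) ^ m :=
              pow_le_pow_left₀ (cm_nonneg _ _ _ _) (cm_pos h) m
          _ = Real.exp (m * (1 / 2)) := by rw [← Real.exp_nat_mul]
          _ ≤ _ := by
            rw [Real.exp_le_exp]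
            have : (0 : ℝ) ≤ m := Nat.cast_nonneg m
            linarith
      have h4 : (1 : ℝ) ≤ Real.exp (2 * m) := Real.one_le_exp (by positivity)
      have h5 : (16 : ℝ) ≤ Real.exp 8 := by
        have h6 : (5 : ℝ) ≤ Real.exp 4 := by
          have := Real.add_one_le_exp (4 : ℝ)
          linarith
        have h7 : Real.exp 8 = Real.exp 4 * Real.exp 4 := by
          rw [← Real.exp_add]
          norm_num
        rw [h7]
        nlinarith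
      rw [Real.exp_add]
      nlinarith

lemma depSy (k : ℕ) (ϑ : ℝ) (n : ℕ) : DepLt n (fun x : ℕ → ℝ => Sy k ϑ x 0 n) := by
  intro x x' hx
  simp only
  unfold Sy H
  rw [Finset.sum_congr rfl fun i hi => hx i (Finset.mem_Ico.mp hi).2]

theorem pf_PC1 : T_PC1 := by
  intro ϖ k ϑ σ τ ω h
  have := h.ep.prob
  have had : 0 ≤ ad ϑ ω := by
    unfold ad
    have := h.ϑ0
    have := h.ω0
    positivity
  refine ⟨?_, fun d => ?_⟩
  swap
  · have := mid h (d + 1)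
    push_cast at this
    exact this
  intro R d hR hRd f g hfm hf hf1 hgm hg hg1
  set A : ℕ := R * k with hA
  set m : ℕ := d + 1 - 2 * R with hm
  have hB : (d + 1 - R) * k = A + m * k := by
    rw [hA, ← add_mul]
    congr 1
    omega
  have hN : (d + 1) * k = A + m * k + A := by
    rw [hA, ← add_mul, ← add_mul]
    congr 1
    omega
  rw [hB, hN]
  set F1 : (ℕ → ℝ) → ℝ≥0∞ := fun x => ENNReal.ofReal |Sy k ϑ x 0 A| with hF1
  have hF1m : Measurable F1 :=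
    ENNReal.measurable_ofReal.comp ((meas_Sy k ϑ 0 A).norm)
  set F2 : (ℕ → ℝ) → ℝ≥0∞ := fun x => ENNReal.ofReal (Sy k ϑ x 0 (m * k)) with hF2
  have hF2m : Measurable F2 := ENNReal.measurable_ofReal.comp (meas_Sy k ϑ 0 (m * k))
  have hF2d : DepLt (m * k) F2 := by
    intro x x' hx
    rw [hF2]
    simp only
    have := depSy k ϑ (m * k) x x' hx
    simp only at this
    rw [this]
  have hpt : ∀ x : ℕ → ℝ, f x * g (shift (A + m * k) x) *
      ENNReal.ofReal (Sy k ϑ x 0 (A + m * k + A)) ≤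
      F1 x + f x * (F2 (shift A x) * g (shift (m * k) (shift A x))) +
        F1 (shift (A + m * k) x) := by
    intro x
    have e1 : Sy k ϑ x 0 (A + m * k + A) = Sy k ϑ x 0 A + Sy k ϑ (shift A x) 0 (m * k) +
        Sy k ϑ (shift (A + m * k) x) 0 A := by
      rw [Sy_shift, Sy_shift, ← Sy_add k ϑ x (Nat.zero_le _) (Nat.le_add_right _ _),
        ← Sy_add k ϑ x (Nat.zero_le _) (Nat.le_add_right _ _)]
    have e2 : ENNReal.ofReal (Sy k ϑ x 0 (A + m * k + A)) ≤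
        F1 x + F2 (shift A x) + F1 (shift (A + m * k) x) := by
      rw [e1]
      refine (ENNReal.ofReal_add_le).trans ?_
      refine add_le_add ((ENNReal.ofReal_add_le).trans (add_le_add ?_ le_rfl)) ?_
      · exact ENNReal.ofReal_le_ofReal (le_abs_self _)
      · exact ENNReal.ofReal_le_ofReal (le_abs_self _)
    have e3 : shift (m * k) (shift A x) = shift (A + m * k) x := by
      rw [shift_shift, add_comm]
    rw [e3]
    have e4 : f x * g (shift (A + m * k) x) ≤ 1 := mul_le_one' (hf1 x) (hg1 _)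
    calc f x * g (shift (A + m * k) x) * ENNReal.ofReal (Sy k ϑ x 0 (A + m * k + A)) ≤
        f x * g (shift (A + m * k) x) * (F1 x + F2 (shift A x) + F1 (shift (A + m * k) x)) := by
          gcongr
      _ = f x * g (shift (A + m * k) x) * F1 x +
          f x * (F2 (shift A x) * g (shift (A + m * k) x)) +
          f x * g (shift (A + m * k) x) * F1 (shift (A + m * k) x) := by ring
      _ ≤ 1 * F1 x + f x * (F2 (shift A x) * g (shift (A + m * k) x)) +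
          1 * F1 (shift (A + m * k) x) := by
          gcongr
      _ = _ := by rw [one_mul, one_mul]
  have hmpA := measurePreserving_shift ϖ (A + m * k)
  have i3 : ∫⁻ x, F1 (shift (A + m * k) x) ∂(iid ϖ) = ∫⁻ x, F1 x ∂(iid ϖ) :=
    hmpA.lintegral_comp hF1m
  have i2 : ∫⁻ x, f x * (F2 (shift A x) * g (shift (m * k) (shift A x))) ∂(iid ϖ) =
      (∫⁻ x, f x ∂(iid ϖ)) * ((∫⁻ x, F2 x ∂(iid ϖ)) * ∫⁻ x, g x ∂(iid ϖ)) := by
    have := Pool.Agent.H96.Cop.lint_mul_shift ϖ (f := f)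
      (g := fun y => F2 y * g (shift (m * k) y)) (t := A) hf hfm
      (hF2m.mul (hgm.comp (measurable_shift _)))
    rw [this]
    rw [Pool.Agent.H96.Cop.lint_mul_shift ϖ (f := F2) (g := g) (t := m * k) hF2d hF2m hgm]
  have i1 : ∫⁻ x, F1 x ∂(iid ϖ) ≤ ENNReal.ofReal (Real.exp (2 * R + 8) / 2) := ends h R
  have i4 : ∫⁻ x, F2 x ∂(iid ϖ) ≤ ENNReal.ofReal (ad ϑ ω * (d + 1) + 4) := by
    refine (mid h m).trans (ENNReal.ofReal_le_ofReal ?_)
    have : (m : ℝ) ≤ d + 1 := by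
      have : m ≤ d + 1 := by omega
      exact_mod_cast this
    have := mul_le_mul_of_nonneg_left this had
    linarith
  have hm1 : Measurable fun x => F1 x + f x * (F2 (shift A x) * g (shift (m * k) (shift A x))) :=
    hF1m.add (hfm.mul ((hF2m.comp (measurable_shift _)).mul
      (hgm.comp ((measurable_shift _).comp (measurable_shift _)))))
  calc ∫⁻ x, f x * g (shift (A + m * k) x) *
      ENNReal.ofReal (Sy k ϑ x 0 (A + m * k + A)) ∂(iid ϖ) ≤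
      ∫⁻ x, (F1 x + f x * (F2 (shift A x) * g (shift (m * k) (shift A x))) +
        F1 (shift (A + m * k) x)) ∂(iid ϖ) := lintegral_mono hpt
    _ = (∫⁻ x, F1 x ∂(iid ϖ)) +
        (∫⁻ x, f x ∂(iid ϖ)) * ((∫⁻ x, F2 x ∂(iid ϖ)) * ∫⁻ x, g x ∂(iid ϖ)) +
        ∫⁻ x, F1 x ∂(iid ϖ) := by
      rw [lintegral_add_left hm1, lintegral_add_left hF1m, i2, i3]
    _ ≤ ENNReal.ofReal (Real.exp (2 * R + 8) / 2) +
        (∫⁻ x, f x ∂(iid ϖ)) * (ENNReal.ofReal (ad ϑ ω * (d + 1) + 4) * ∫⁻ x, g x ∂(iid ϖ)) +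
        ENNReal.ofReal (Real.exp (2 * R + 8) / 2) := by
      gcongr
    _ = (∫⁻ x, f x ∂(iid ϖ)) * (∫⁻ x, g x ∂(iid ϖ)) * ENNReal.ofReal (ad ϑ ω * (d + 1) + 4) +
        (ENNReal.ofReal (Real.exp (2 * R + 8) / 2) +
          ENNReal.ofReal (Real.exp (2 * R + 8) / 2)) := by ring
    _ = _ := by
      rw [← ENNReal.ofReal_add (by positivity) (by positivity), add_halves]

end Pool.Agent.H46.EX
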